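import Pool.Agent.Helper77.RL.Goals3
import Pool.Agent.Helper90.RP.SUB

/-!
# Packet RL-PSI (MP_fc6b1e_nt): the transfer of the Kummer character
-/

namespace Pool.Agent.Helper86.RL

open NumberField Module IsDedekindDomain Pool.Agent.Helper51.RP
open Pool.Agent.Helper77.RL

section transfer

variable {G : Type} [Group G] {N : Subgroup G} {A : Type} [CommGroup A] (ϕ : N →* A)

theorem transfer_pow [N.FiniteIndex] (m : ℕ) (hm : ∀ a : N, ϕ a ^ m = 1) (g : G) :
    MonoidHom.transfer ϕ g ^ m = 1 := by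
  classical
  rw [MonoidHom.transfer_def ϕ default g, Subgroup.leftTransversals.diff]
  rw [← Finset.prod_pow]
  exact Finset.prod_eq_one fun q _ ↦ hm _

theorem transfer_one [hN : N.Normal] [N.FiniteIndex] [Finite G] (g : G)
    (hg : ∀ i : ℕ, g ^ i ∈ N → g ^ i = 1) : MonoidHom.transfer ϕ g = 1 := by
  classical
  have : Fintype (Quotient (MulAction.orbitRel (Subgroup.zpowers g) (G ⧸ N))) :=
    Fintype.ofFinite _
  rw [MonoidHom.transfer_eq_prod_quotient_orbitRel_zpowers_quot]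
  refine Finset.prod_eq_one fun q _ ↦ ?_
  set t := q.out.out with ht
  set i := Function.minimalPeriod (g • ·) q.out with hi
  have h1 : t⁻¹ * g ^ i * t ∈ N := QuotientGroup.out_conj_pow_minimalPeriod_mem N g q.out
  have h2 : g ^ i ∈ N := by
    have := hN.conj_mem _ h1 t
    simpa [mul_assoc] using this
  have h3 := hg i h2
  have h4 : (⟨t⁻¹ * g ^ i * t, h1⟩ : N) = 1 := by
    apply Subtype.ext
    show t⁻¹ * g ^ i * t = 1
    rw [h3]; simp
  rw [h4, map_one]

theorem conj_mem' [hN : N.Normal] {h : G} (hh : h ∈ N) (t : G) : t⁻¹ * h * t ∈ N := by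
  have := hN.conj_mem _ hh t⁻¹
  simpa using this

theorem transfer_normal [hN : N.Normal] [N.FiniteIndex] [Fintype (G ⧸ N)] :
    ∃ t : G ⧸ N → G, (∀ q, (t q : G ⧸ N) = q) ∧
      ∀ (h : G) (hh : h ∈ N), MonoidHom.transfer ϕ h =
        ∏ q : G ⧸ N, ϕ ⟨(t q)⁻¹ * h * t q, conj_mem' hh (t q)⟩ := by
  classical
  let T : N.LeftTransversal := default
  refine ⟨fun q ↦ (T.2.leftQuotientEquiv q : G), fun q ↦ ?_, fun h hh ↦ ?_⟩
  · exact T.2.leftQuotientEquiv.symm_apply_apply q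
  · rw [MonoidHom.transfer_def ϕ T h, Subgroup.leftTransversals.diff]
    have hq : ∀ q : G ⧸ N, h⁻¹ • q = q := by
      intro q
      induction q using QuotientGroup.induction_on with
      | H z =>
        show ((h⁻¹ • z : G) : G ⧸ N) = z
        rw [QuotientGroup.eq]
        have := hN.conj_mem _ hh z⁻¹
        simpa [mul_assoc] using this
    refine Finset.prod_congr (by ext; simp) fun q _ ↦ ?_
    congr 2
    rw [Subgroup.smul_apply_eq_smul_apply_inv_smul, hq q]
    simp [mul_assoc]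

end transfer

section kummer

variable (K E F : Type) [Field K] [Field E] [Field F] [Algebra K E] [Algebra E F] [Algebra K F]
  [IsScalarTower K E F]

/-- The elements of `Gal(F/K)` which are trivial on `E`. -/
def triv : Subgroup (F ≃ₐ[K] F) where
  carrier := {g | ∀ x : E, g (algebraMap E F x) = algebraMap E F x}
  mul_mem' := by
    intro a b ha hb x
    show a (b _) = _
    rw [hb x, ha x]
  one_mem' := fun x ↦ rfl
  inv_mem' := by
    intro a ha x
    show a.symm _ = _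
    rw [AlgEquiv.symm_apply_eq, ha x]

variable {K E F}

theorem mem_triv {g : F ≃ₐ[K] F} :
    g ∈ triv K E F ↔ ∀ x : E, g (algebraMap E F x) = algebraMap E F x := Iff.rfl

theorem res_apply [Normal K E] (g : F ≃ₐ[K] F) (x : E) :
    algebraMap E F (g.restrictNormal E x) = g (algebraMap E F x) :=
  AlgEquiv.restrictNormal_commutes g E x

theorem triv_normal [Normal K E] : (triv K E F).Normal := by
  refine ⟨fun h hh g x ↦ ?_⟩
  show g (h (g⁻¹ (algebraMap E F x))) = _
  rw [← res_apply (g⁻¹) x, hh, res_apply]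
  show g (g.symm _) = _
  rw [AlgEquiv.apply_symm_apply]

/-- The Kummer character. -/
noncomputable def kap {ξ : E} (u : Fˣ)
    (hu : ∀ h ∈ triv K E F, ∃ i : ℕ, h (u : F) = algebraMap E F ξ ^ i * u) :
    triv K E F →* Fˣ where
  toFun h := Units.map (((h : F ≃ₐ[K] F) : F →+* F) : F →* F) u * u⁻¹
  map_one' := by
    apply Units.ext
    show (u : F) * (u⁻¹ : Fˣ) = 1
    simp
  map_mul' := by
    intro a b
    apply Units.ext
    show (a : F ≃ₐ[K] F) ((b : F ≃ₐ[K] F) (u : F)) * (u⁻¹ : Fˣ) =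
      ((a : F ≃ₐ[K] F) (u : F) * (u⁻¹ : Fˣ)) * ((b : F ≃ₐ[K] F) (u : F) * (u⁻¹ : Fˣ))
    obtain ⟨i, hi⟩ := hu b b.2
    have hx : (a : F ≃ₐ[K] F) (algebraMap E F ξ) = algebraMap E F ξ := a.2 ξ
    rw [hi, map_mul, map_pow, hx]
    have hu0 : (u : F) * (u⁻¹ : Fˣ) = 1 := by simp
    linear_combination (-(algebraMap E F ξ ^ i * (a : F ≃ₐ[K] F) (u : F) * (u⁻¹ : Fˣ))) * hu0

theorem kap_val {ξ : E} (u : Fˣ)
    (hu : ∀ h ∈ triv K E F, ∃ i : ℕ, h (u : F) = algebraMap E F ξ ^ i * u) (h : triv K E F) :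
    ((kap u hu h : Fˣ) : F) = (h : F ≃ₐ[K] F) (u : F) * (u⁻¹ : Fˣ) := rfl

theorem kap_mul {ξ : E} (u : Fˣ)
    (hu : ∀ h ∈ triv K E F, ∃ i : ℕ, h (u : F) = algebraMap E F ξ ^ i * u) (h : triv K E F) :
    ((kap u hu h : Fˣ) : F) * u = (h : F ≃ₐ[K] F) (u : F) := by
  rw [kap_val, mul_assoc]
  simp

theorem kum_one {m : ℕ} {y : F} (hy : y ≠ 0) {c : E} (hc : y ^ m = algebraMap E F c)
    {h : F ≃ₐ[K] F} (hh : h ∈ triv K E F) : (h y / y) ^ m = 1 := by
  rw [div_pow, ← map_pow, hc, hh, ← hc]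
  exact div_self (pow_ne_zero _ hy)

theorem kum_pow {m : ℕ} [NeZero m] {ξ : F} (hξ : IsPrimitiveRoot ξ m) {y : F} (hy : y ≠ 0) {c : E}
    (hc : y ^ m = algebraMap E F c) {h : F ≃ₐ[K] F} (hh : h ∈ triv K E F) :
    ∃ i : ℕ, h y = ξ ^ i * y := by
  obtain ⟨i, _, hi⟩ := hξ.eq_pow_of_pow_eq_one (kum_one hy hc hh)
  exact ⟨i, by rw [hi, div_mul_cancel₀ _ hy]⟩

end kummer

theorem exists_order {p : ℕ} [Fact p.Prime] {n : ℕ} {K E F : Type} [Field K] [NumberField K]
    [Field E] [NumberField E] [Field F] [NumberField F] [Algebra K E] [Algebra E F] [Algebra K F]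
    [IsScalarTower K E F] {ξ b : E} [IsGalois K E] [IsGalois K F] [IsGalois E F]
    [FiniteDimensional K F] [FiniteDimensional E F]
    (hξ : IsPrimitiveRoot (algebraMap E F ξ) (p ^ n)) (hb : b ≠ 0)
    (Q₀ : HeightOneSpectrum (𝓞 E)) (hfree : FreeP K Q₀) (hord : ordv Q₀ b = 1)
    (hoth : ∀ Q' : HeightOneSpectrum (𝓞 E), ConjP K Q' Q₀ → Q' ≠ Q₀ → ordv Q' b = 0)
    (u : Fˣ) (hβ : (u : F) ^ p ^ n = algebraMap E F b)
    (hu : ∀ h ∈ triv K E F, ∃ i : ℕ, h (u : F) = algebraMap E F ξ ^ i * u)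
    (hψ : ∀ g : F ≃ₐ[K] F, MonoidHom.transfer (kap u hu) g ^ p ^ n = 1) :
    ∃ g : F ≃ₐ[K] F, orderOf (MonoidHom.transfer (kap u hu) g) = p ^ n := by
  classical
  have hp : p.Prime := Fact.out
  have : (triv K E F).Normal := triv_normal
  obtain _ | k := n
  · exact ⟨1, by simp⟩
  by_contra hcon
  push Not at hcon
  have hk : ∀ g : F ≃ₐ[K] F, MonoidHom.transfer (kap u hu) g ^ p ^ k = 1 := by
    intro g
    by_contra h
    exact hcon g (orderOf_eq_prime_pow h (hψ g))
  have : NeZero (p ^ (k + 1)) := ⟨pow_ne_zero _ hp.ne_zero⟩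
  let _ : Fintype ((F ≃ₐ[K] F) ⧸ triv K E F) := Fintype.ofFinite _
  obtain ⟨t, ht, hprod⟩ := transfer_normal (kap u hu)
  have hex : ∀ q, ∃ i : ℕ, i < p ^ (k + 1) ∧
      (t q)⁻¹ (algebraMap E F ξ) = algebraMap E F ξ ^ i := by
    intro q
    have h1 : ((t q)⁻¹ (algebraMap E F ξ)) ^ p ^ (k + 1) = 1 := by
      rw [← map_pow, hξ.pow_eq_one, map_one]
    obtain ⟨i, hi0, hi⟩ := hξ.eq_pow_of_pow_eq_one h1
    exact ⟨i, hi0, hi.symm⟩
  choose nn hnlt hnn using hex
  set q₁ : (F ≃ₐ[K] F) ⧸ triv K E F := ((1 : F ≃ₐ[K] F) : (F ≃ₐ[K] F) ⧸ triv K E F) with hq₁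
  have htq₁ : t q₁ ∈ triv K E F := by
    have := ht q₁
    rw [hq₁] at this ⊢
    exact (QuotientGroup.eq_one_iff _).1 this
  have hn1 : nn q₁ = 1 := by
    have h1 := hnn q₁
    have h2 : (t q₁)⁻¹ (algebraMap E F ξ) = algebraMap E F ξ := (triv K E F).inv_mem htq₁ ξ
    rw [h2] at h1
    have h3 : algebraMap E F ξ ^ nn q₁ = algebraMap E F ξ ^ 1 := by rw [pow_one]; exact h1.symm
    exact hξ.pow_inj (hnlt q₁) (Nat.one_lt_pow (Nat.succ_ne_zero k) hp.one_lt) h3
  -- the element α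
  set β : F := (u : F) with hβdef
  have hβ0 : β ≠ 0 := u.ne_zero
  have htβ : ∀ q, t q β ≠ 0 := fun q ↦ by
    rw [ne_eq, EmbeddingLike.map_eq_zero_iff]; exact hβ0
  have htp : ∀ q, (t q β) ^ p ^ (k + 1) = algebraMap E F ((t q).restrictNormal E b) := by
    intro q
    rw [← map_pow, hβ, res_apply]
  set α : F := ∏ q, (t q β) ^ nn q with hα
  have hact : ∀ h ∈ triv K E F, h α = ((MonoidHom.transfer (kap u hu) h : Fˣ) : F) * α := by
    intro h hh
    rw [hprod h hh, hα, map_prod, Units.coe_prod, ← Finset.prod_mul_distrib]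
    refine Finset.prod_congr rfl fun q _ ↦ ?_
    obtain ⟨i, hi⟩ := kum_pow hξ (htβ q) (htp q) hh
    set a : triv K E F := ⟨(t q)⁻¹ * h * t q, conj_mem' hh (t q)⟩ with ha
    have h1 := kap_mul u hu a
    have h2 : (a : F ≃ₐ[K] F) (u : F) = (t q)⁻¹ (h (t q β)) := rfl
    rw [h2, hi, map_mul, map_pow, hnn q] at h1
    have h3 : (t q)⁻¹ (t q β) = β := (t q).symm_apply_apply β
    rw [h3] at h1
    have h4 : ((kap u hu a : Fˣ) : F) = (algebraMap E F ξ ^ nn q) ^ i :=
      mul_right_cancel₀ hβ0 h1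
    rw [h4, map_pow, hi, mul_pow, ← pow_mul, ← pow_mul, mul_comm i]
  have hfix : ∀ f : F ≃ₐ[E] F, f (α ^ p ^ k) = α ^ p ^ k := by
    intro f
    have hf : (f.restrictScalars K) ∈ triv K E F := fun x ↦ f.commutes x
    have h1 := hact _ hf
    have h2 := hk (f.restrictScalars K)
    have h3 : f α = ((MonoidHom.transfer (kap u hu) (f.restrictScalars K) : Fˣ) : F) * α := h1
    rw [map_pow, h3, mul_pow, ← Units.val_pow_eq_pow_val, h2, Units.val_one, one_mul]
  obtain ⟨c, hc⟩ := (IsGalois.mem_range_algebraMap_iff_fixed (F := E) (α ^ p ^ k)).2 hfix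
  have hcp : c ^ p = ∏ q, ((t q).restrictNormal E b) ^ nn q := by
    apply (algebraMap E F).injective
    rw [map_pow, hc, ← pow_mul, ← pow_succ, hα, ← Finset.prod_pow, map_prod]
    refine Finset.prod_congr rfl fun q _ ↦ ?_
    rw [map_pow, ← htp q, ← pow_mul, ← pow_mul, mul_comm]
  -- valuations
  have hv : ∀ q, q ≠ q₁ → Q₀.valuation E ((t q).restrictNormal E b) = 1 := by
    intro q hq
    obtain ⟨Q', hQ', hval⟩ := Pool.Agent.Helper90.RP.exists_pull (K := K)
      ((t q).restrictNormal E) Q₀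
    have hne : Q' ≠ Q₀ := by
      rintro rfl
      have h1 := hfree _ hval
      apply hq
      rw [← ht q, hq₁, QuotientGroup.eq, mul_one]
      apply (triv K E F).inv_mem
      intro x
      rw [← res_apply, h1]; rfl
    have h2 := hoth Q' hQ' hne
    rw [hval]
    have h3 : Q'.valuation E b ≠ 0 := (Valuation.ne_zero_iff _).2 hb
    have h4 : WithZero.log (Q'.valuation E b) = 0 := by
      unfold ordv at h2; linarith
    rw [← WithZero.exp_log h3, h4, WithZero.exp_zero]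
  have hv1 : (t q₁).restrictNormal E b = b := by
    apply (algebraMap E F).injective
    rw [res_apply, htq₁]
  have h5 : Q₀.valuation E c ^ p = Q₀.valuation E b ^ nn q₁ := by
    rw [← map_pow, hcp, map_prod, Finset.prod_eq_single q₁]
    · rw [map_pow, hv1]
    · intro q _ hq
      rw [map_pow, hv q hq, one_pow]
    · intro h; exact absurd (Finset.mem_univ _) h
  have h6 := congrArg WithZero.log h5
  rw [WithZero.log_pow, WithZero.log_pow] at h6
  have h7 : WithZero.log (Q₀.valuation E b) = -1 := by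
    unfold ordv at hord; linarith
  rw [h7] at h6
  have h8 : (p : ℤ) ∣ (nn q₁ : ℤ) := by
    refine ⟨-WithZero.log (Q₀.valuation E c), ?_⟩
    simp only [nsmul_eq_mul] at h6
    linarith
  have h9 : p ∣ nn q₁ := by exact_mod_cast h8
  rw [hn1] at h9
  exact hp.one_lt.ne' (Nat.dvd_one.1 h9)

/-- **RL-PSI**. -/
theorem x_psi : Pool.Agent.Helper77.RL.X_PSI := by
  classical
  intro p _ n K E F _ _ _ _ _ _ _ _ _ _ ξ b hK Q₀ hfree hord hoth
  have hp : p.Prime := Fact.out
  have := hK.galE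
  have := hK.galF
  have : IsGalois E F := IsGalois.tower_top_of_isGalois K E F
  have : FiniteDimensional K F := Module.Finite.of_restrictScalars_finite ℚ K F
  have : FiniteDimensional E F := Module.Finite.of_restrictScalars_finite ℚ E F
  have : NeZero (p ^ n) := ⟨pow_ne_zero _ hp.ne_zero⟩
  have hξ : IsPrimitiveRoot (algebraMap E F ξ) (p ^ n) :=
    hK.prim.map_of_injective (algebraMap E F).injective
  have hnorm : (triv K E F).Normal := triv_normal
  obtain ⟨β, hβ⟩ := hK.root 1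
  have hβ' : β ^ p ^ n = algebraMap E F b := hβ
  have hβ0 : β ≠ 0 := by
    rintro rfl
    rw [zero_pow (pow_ne_zero _ hp.ne_zero)] at hβ'
    exact hK.ne ((algebraMap E F).injective (by rw [map_zero]; exact hβ'.symm))
  let u : Fˣ := Units.mk0 β hβ0
  have hu : ∀ h ∈ triv K E F, ∃ i : ℕ, h (u : F) = algebraMap E F ξ ^ i * u :=
    fun h hh ↦ kum_pow hξ hβ0 hβ' hh
  have hκ : ∀ a : triv K E F, kap u hu a ^ p ^ n = 1 := by
    intro a
    apply Units.ext
    rw [Units.val_pow_eq_pow_val, kap_val, Units.val_one, Units.val_inv_eq_inv_val,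
      ← div_eq_mul_inv]
    exact kum_one hβ0 hβ' a.2
  set ψ : (F ≃ₐ[K] F) →* Fˣ := MonoidHom.transfer (kap u hu) with hψdef
  have hψ : ∀ g, ψ g ^ p ^ n = 1 := transfer_pow _ _ hκ
  obtain ⟨g₀, hg₀⟩ := exists_order hξ hK.ne Q₀ hfree hord hoth u hβ' hu hψ
  have hle : ψ.range ≤ rootsOfUnity (p ^ n) F := by
    rintro _ ⟨g, rfl⟩
    exact (mem_rootsOfUnity _ _).2 (hψ g)
  have hfin : Finite ψ.range := Finite.of_injective _ (Subgroup.inclusion_injective hle)
  have hcard : Nat.card ψ.range = p ^ n := by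
    apply le_antisymm
    · exact (Nat.card_le_card_of_injective _ (Subgroup.inclusion_injective hle)).trans
        (card_rootsOfUnity F (p ^ n))
    · have h1 : Subgroup.zpowers (ψ g₀) ≤ ψ.range := by
        rw [Subgroup.zpowers_le]; exact ⟨g₀, rfl⟩
      rw [← hg₀, ← Nat.card_zpowers]
      exact Nat.card_le_card_of_injective _ (Subgroup.inclusion_injective h1)
  let L : IntermediateField K F := IntermediateField.fixedField ψ.ker
  have hLgal : IsGalois K L := IsGalois.of_fixedField_normal_subgroup ψ.ker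
  let e : (L ≃ₐ[K] L) ≃* ψ.range :=
    (IsGalois.normalAutEquivQuotient ψ.ker).symm.trans (QuotientGroup.quotientKerEquivRange ψ)
  refine ⟨L, hLgal, ?_, ?_, ?_⟩
  · exact isCyclic_of_surjective e.symm e.symm.surjective
  · rw [← IsGalois.card_aut_eq_finrank, Nat.card_congr e.toEquiv, hcard]
  · intro g hg x
    have h1 : ψ g = 1 := transfer_one _ g hg
    exact x.2 ⟨g, MonoidHom.mem_ker.2 h1⟩

end Pool.Agent.Helper86.RL
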