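import Pool.Agent.Helper18.RL.Goals

set_option autoImplicit false
set_option linter.unusedSectionVars false

namespace Pool.Agent.Helper86.RL

open Finset Pool.Agent.Helper37.RG3 Pool.Agent.Helper18.RL

/-- Packet RL-LEV. -/
theorem glev (hALT : G_ALT) : G_LEV := by
  intro V _ _ R K a b c hsymm hirr hab hac hbc haK hbK hcK hmK hmab hmac hmbc S hSK hLO
  set N : Finset V := {a, b, c} with hN
  have hNK : ∀ x ∈ N, x ∉ K := by
    intro x hx
    simp only [hN, mem_insert, mem_singleton] at hx
    rcases hx with rfl | rfl | rfl <;> assumption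
  have hswap : ∀ x y : V, (∃ m, MT R (insert x (insert y K)) m ∧ m x ∈ K ∧ m y ∈ K) →
      ∃ m, MT R (insert y (insert x K)) m ∧ m y ∈ K ∧ m x ∈ K := by
    rintro x y ⟨m, h1, h2, h3⟩
    rw [Finset.insert_comm] at h1
    exact ⟨m, h1, h3, h2⟩
  have hM : ∀ x ∈ N, ∀ y ∈ N, x ≠ y →
      ∃ m, MT R (insert x (insert y K)) m ∧ m x ∈ K ∧ m y ∈ K := by
    intro x hx y hy hxy
    simp only [hN, mem_insert, mem_singleton] at hx hy
    rcases hx with rfl | rfl | rfl <;> rcases hy with rfl | rfl | rfl
    · exact absurd rfl hxy
    · exact hmab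
    · exact hmac
    · exact hswap _ _ hmab
    · exact absurd rfl hxy
    · exact hmbc
    · exact hswap _ _ hmac
    · exact hswap _ _ hmbc
    · exact absurd rfl hxy
  have hNcard : N.card ≤ 3 := Finset.card_le_three
  have hnew : ∀ x y, RE R K a b c x y → ¬ R x y → x ≠ y ∧ x ∈ N ∧ y ∈ N := by
    intro x y h1 h2
    rcases h1 with h | h
    · exact absurd h.1 h2
    · exact h
  -- three distinct elements of `N` exhaust `N`
  have hthree : ∀ x ∈ N, ∀ y ∈ N, ∀ z ∈ N, x ≠ y → x ≠ z → y ≠ z → ∀ t ∈ N,
      t = x ∨ t = y ∨ t = z := by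
    intro x hx y hy z hz h1 h2 h3 t ht
    by_contra hcon
    push Not at hcon
    have hsub : ({t, x, y, z} : Finset V) ⊆ N := by
      intro s hs
      simp only [mem_insert, mem_singleton] at hs
      rcases hs with rfl | rfl | rfl | rfl <;> assumption
    have hc := Finset.card_le_card hsub
    rw [Finset.card_insert_of_notMem (by
        simp only [mem_insert, mem_singleton, not_or]; exact hcon),
      Finset.card_insert_of_notMem (by
        simp only [mem_insert, mem_singleton, not_or]; exact ⟨h1, h2⟩),
      Finset.card_pair h3] at hc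
    omega
  obtain ⟨hodd, h5, s, e, hp, hes⟩ := hLO
  -- the general ending: gluing a path `T` with a path `Q`
  have hend : ∀ (T Q : Finset V) (p q : V), Pth R T p q → Pth R Q q p → p ≠ q → p ∈ N → q ∈ N →
      T ⊆ S → S \ N ⊆ T → Q ⊆ S ∪ K → (∀ x ∈ Q, x ∈ T → x = p ∨ x = q) →
      (∃ k ∈ Q, k ∈ K) → Odd (T.card + Q.card) → 4 ≤ T.card →
      ∃ S', LO R S' ∧ S' ⊆ S ∪ K ∧ S \ N ⊆ S' ∧
        (S' = S ∨ (2 ≤ (S' ∩ N).card ∧ (S' ∩ K).Nonempty)) := by
    intro T Q p q hT hQ hpq hpN hqN hTS hST hQS hd hk hod h4
    obtain ⟨k, hkQ, hkK⟩ := hk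
    have h3 : 3 ≤ Q.card := by
      have hsub : ({p, q, k} : Finset V) ⊆ Q := by
        intro x hx
        simp only [mem_insert, mem_singleton] at hx
        rcases hx with rfl | rfl | rfl
        · exact hQ.right_mem
        · exact hQ.left_mem
        · exact hkQ
      have hc := Finset.card_le_card hsub
      have hpk : p ≠ k := fun h => hNK p hpN (h ▸ hkK)
      have hqk : q ≠ k := fun h => hNK q hqN (h ▸ hkK)
      rw [Finset.card_insert_of_notMem (by
        simp only [mem_insert, mem_singleton, not_or]; exact ⟨hpq, hpk⟩),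
        Finset.card_pair hqk] at hc
      exact hc
    obtain ⟨⟨a', b', hc1, hc2⟩, hcard⟩ := glue hT hQ hpq h3 hd
    refine ⟨T ∪ Q, ⟨?_, by omega, a', b', hc1, hc2⟩, ?_, ?_, Or.inr ⟨?_, ?_⟩⟩
    · have : (T ∪ Q).card + 2 = T.card + Q.card := hcard
      rw [← this] at hod
      rw [Nat.odd_iff] at hod ⊢
      omega
    · exact union_subset (hTS.trans subset_union_left) hQS
    · exact hST.trans subset_union_left
    · have hsub : ({p, q} : Finset V) ⊆ (T ∪ Q) ∩ N := by
        intro x hx
        simp only [mem_insert, mem_singleton] at hx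
        rcases hx with rfl | rfl
        · exact mem_inter.mpr ⟨mem_union_left _ hT.left_mem, hpN⟩
        · exact mem_inter.mpr ⟨mem_union_left _ hT.right_mem, hqN⟩
      have hc := Finset.card_le_card hsub
      rwa [Finset.card_pair hpq] at hc
    · exact ⟨k, mem_inter.mpr ⟨mem_union_right _ hkQ, hkK⟩⟩
  rcases cyc_real_or hp hes R with ⟨h1, h2⟩ | ⟨p, q, h1, h2, h3⟩
  · exact ⟨S, ⟨hodd, h5, s, e, h1, h2⟩, subset_union_left, sdiff_subset, Or.inl rfl⟩
  obtain ⟨hqp, hqN, hpN⟩ := hnew q p h2 h3
  have hSKd : ∀ x ∈ S, x ∉ K := fun x hx hk => disjoint_left.mp hSK hx hk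
  rcases h1.real_or R with hr | ⟨S₁, S₂, u, v, hS, hd, k1, k1', k2, k3, k4⟩
  · -- case (A)
    obtain ⟨m₁, hm₁, hm₁q, -⟩ := hM q hqN p hpN hqp
    obtain ⟨m₂, hm₂⟩ := hmK
    obtain ⟨Q, hQ1, hQ2, hQ3, hQ4⟩ := hALT V R (insert q (insert p K)) K m₁ m₂ q p hirr hm₁ hm₂
      (by simp) (hNK q hqN) hqp (by
        intro v hv1 hv2
        simp [hv1, hv2]) (Or.inl ⟨by simp, hNK p hpN⟩)
    have hQsub : ∀ x ∈ Q, x = q ∨ x = p ∨ x ∈ K := by
      intro x hx
      have := hQ2 hx
      simp only [mem_union, mem_insert] at this
      tauto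
    have hQe : Even Q.card := by
      rcases hQ4 with h | h
      · exact h.2
      · exact absurd h.1 (hNK p hpN)
    refine hend S Q p q hr hQ1 hqp.symm hpN hqN subset_rfl sdiff_subset ?_ ?_
      ⟨m₁ q, hQ3, hm₁q⟩ (hodd.add_even hQe) (by omega)
    · intro x hx
      rcases hQsub x hx with rfl | rfl | h
      · exact mem_union_left _ h1.right_mem
      · exact mem_union_left _ h1.left_mem
      · exact mem_union_right _ h
    · intro x hx hxS
      rcases hQsub x hx with h | h | h
      · exact Or.inr h
      · exact Or.inl h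
      · exact absurd h (hSKd x hxS)
  · -- case (B)
    obtain ⟨huv, huN, hvN⟩ := hnew u v k2 k3
    have hpS1 : p ∈ S₁ := k1.left_mem
    have huS1 : u ∈ S₁ := k1.right_mem
    have hvS2 : v ∈ S₂ := k4.left_mem
    have hqS2 : q ∈ S₂ := k4.right_mem
    have hcardS : S.card = S₁.card + S₂.card := by
      rw [← hS, Finset.card_union_of_disjoint hd]
    have hS1S : S₁ ⊆ S := by rw [← hS]; exact subset_union_left
    have hS2S : S₂ ⊆ S := by rw [← hS]; exact subset_union_right
    have hne : ∀ x ∈ S₁, ∀ y ∈ S₂, x ≠ y := by
      intro x hx y hy hxy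
      exact disjoint_left.mp hd hx (hxy ▸ hy)
    by_cases hup : u = p
    · -- `u = p`
      subst hup
      have hS1 : S₁ = {u} := k1.eq_of_loop
      rw [hS1, card_singleton] at hcardS
      have hvq : v ≠ q := by
        intro h
        subst h
        have := k4.eq_of_loop
        rw [this, card_singleton] at hcardS
        omega
      have huS2 : u ∉ S₂ := fun h => hne u huS1 u h rfl
      have hreal : Pth R S₂ v q := by
        rcases k4.real_or R with h | ⟨T₁, T₂, u', v', hT, hTd, j1, j1', j2, j3, j4⟩
        · exact h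
        · exfalso
          obtain ⟨huv', huN', hvN'⟩ := hnew u' v' j2 j3
          have hu'2 : u' ∈ S₂ := by rw [← hT]; exact mem_union_left _ j1.right_mem
          have hv'2 : v' ∈ S₂ := by rw [← hT]; exact mem_union_right _ j4.left_mem
          have e1 : u' = v := by
            rcases hthree u huN v hvN q hqN huv (hne u huS1 q hqS2) hvq u' huN' with h | h | h
            · exact absurd (h ▸ hu'2) huS2
            · exact h
            · exact absurd j4.right_mem (disjoint_left.mp hTd (h ▸ j1.right_mem))
          have e2 : v' = q := by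
            rcases hthree u huN v hvN q hqN huv (hne u huS1 q hqS2) hvq v' hvN' with h | h | h
            · exact absurd (h ▸ hv'2) huS2
            · exact absurd (h ▸ j4.left_mem) (disjoint_left.mp hTd j1.left_mem)
            · exact h
          subst e1 e2
          have i1 := j1.eq_of_loop
          have i2 := j4.eq_of_loop
          have i3 : S₂.card = 2 := by
            rw [← hT, Finset.card_union_of_disjoint hTd, i1, i2, card_singleton, card_singleton]
          omega
      obtain ⟨m₁, hm₁, hm₁q, -⟩ := hM q hqN u hpN hqp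
      obtain ⟨m₂, hm₂, -, -⟩ := hM u huN v hvN huv
      obtain ⟨Q, hQ1, hQ2, hQ3, hQ4⟩ := hALT V R (insert q (insert u K)) (insert u (insert v K))
        m₁ m₂ q v hirr hm₁ hm₂ (by simp) (by
          simp only [mem_insert, not_or]
          exact ⟨hqp, hvq.symm, hNK q hqN⟩) hvq.symm (by
          intro x hx1 hx2
          simp [hx1, hx2]) (Or.inr ⟨by
            simp only [mem_insert, not_or]
            exact ⟨hvq, huv.symm, hNK v hvN⟩, by simp⟩)
      have hQsub : ∀ x ∈ Q, x = q ∨ x = u ∨ x = v ∨ x ∈ K := by
        intro x hx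
        have := hQ2 hx
        simp only [mem_union, mem_insert] at this
        tauto
      have hQo : Odd Q.card := by
        rcases hQ4 with h | h
        · exfalso
          have := h.1
          simp only [mem_insert] at this
          rcases this with h | h | h
          · exact hvq h
          · exact huv h.symm
          · exact hNK v hvN h
        · exact h.2
      have hS2e : Even S₂.card := by
        rw [hcardS] at hodd
        rw [Nat.odd_iff] at hodd
        rw [Nat.even_iff]
        omega
      refine hend S₂ Q v q hreal hQ1 hvq hvN hqN hS2S ?_ ?_ ?_ ⟨m₁ q, hQ3, hm₁q⟩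
        (hS2e.add_odd hQo) (by omega)
      · intro x hx
        rw [mem_sdiff] at hx
        have hx1 := hx.1
        rw [← hS, mem_union, hS1, mem_singleton] at hx1
        rcases hx1 with h | h
        · exact absurd (h ▸ huN) hx.2
        · exact h
      · intro x hx
        rcases hQsub x hx with rfl | rfl | rfl | h
        · exact mem_union_left _ (hS2S hqS2)
        · exact mem_union_left _ (hS1S huS1)
        · exact mem_union_left _ (hS2S hvS2)
        · exact mem_union_right _ h
      · intro x hx hxS
        rcases hQsub x hx with h | h | h | h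
        · exact Or.inr h
        · exact absurd (h ▸ hxS) huS2
        · exact Or.inl h
        · exact absurd h (hSKd x (hS2S hxS))
    · -- `v = q`
      have hvq : v = q := by
        by_contra hvq
        rcases hthree p hpN u huN v hvN (Ne.symm hup) (hne p hpS1 v hvS2) (hne u huS1 v hvS2)
          q hqN with h | h | h
        · exact hne p hpS1 q hqS2 h.symm
        · exact hne u huS1 q hqS2 h.symm
        · exact hvq h.symm
      subst hvq
      have hS2 : S₂ = {v} := k4.eq_of_loop
      rw [hS2, card_singleton] at hcardS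
      have hvS1 : v ∉ S₁ := fun h => hne v h v hvS2 rfl
      obtain ⟨m₁, hm₁, hm₁u, -⟩ := hM u huN v hvN huv
      obtain ⟨m₂, hm₂, -, -⟩ := hM v hvN p hpN hqp
      obtain ⟨Q, hQ1, hQ2, hQ3, hQ4⟩ := hALT V R (insert u (insert v K)) (insert v (insert p K))
        m₁ m₂ u p hirr hm₁ hm₂ (by simp) (by
          simp only [mem_insert, not_or]
          exact ⟨huv, hup, hNK u huN⟩) hup (by
          intro x hx1 hx2
          simp [hx1, hx2]) (Or.inr ⟨by
            simp only [mem_insert, not_or]
            exact ⟨Ne.symm hup, hqp.symm, hNK p hpN⟩, by simp⟩)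
      have hQsub : ∀ x ∈ Q, x = u ∨ x = v ∨ x = p ∨ x ∈ K := by
        intro x hx
        have := hQ2 hx
        simp only [mem_union, mem_insert] at this
        tauto
      have hQo : Odd Q.card := by
        rcases hQ4 with h | h
        · exfalso
          have := h.1
          simp only [mem_insert] at this
          rcases this with h | h | h
          · exact hup h.symm
          · exact hqp h.symm
          · exact hNK p hpN h
        · exact h.2
      have hS1e : Even S₁.card := by
        rw [hcardS] at hodd
        rw [Nat.odd_iff] at hodd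
        rw [Nat.even_iff]
        omega
      refine hend S₁ Q p u k1 hQ1 (Ne.symm hup) hpN huN hS1S ?_ ?_ ?_ ⟨m₁ u, hQ3, hm₁u⟩
        (hS1e.add_odd hQo) (by omega)
      · intro x hx
        rw [mem_sdiff] at hx
        have hx1 := hx.1
        rw [← hS, mem_union, hS2, mem_singleton] at hx1
        rcases hx1 with h | h
        · exact h
        · exact absurd (h ▸ hvN) hx.2
      · intro x hx
        rcases hQsub x hx with rfl | rfl | rfl | h
        · exact mem_union_left _ (hS1S huS1)
        · exact mem_union_left _ (hS2S hvS2)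
        · exact mem_union_left _ (hS1S hpS1)
        · exact mem_union_right _ h
      · intro x hx hxS
        rcases hQsub x hx with h | h | h | h
        · exact Or.inr h
        · exact absurd (h ▸ hxS) hvS1
        · exact Or.inl h
        · exact absurd h (hSKd x (hS1S hxS))

end Pool.Agent.Helper86.RL
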